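import Pool.Agent.H9.Geproci.Final

/-!
# Non-trivial geproci sets with the same matroid that are not projectively equivalent
-/

namespace Pool.Agent.Results.MP_586029_ag.MatroidDoesNotFixGeproci

open Pool.Agent.H9.Geproci

/-- The answer to Q1 is no. More precisely, there is an infinite family of non-trivial geproci sets
of 24 points in `P^3`, any two of which have isomorphic matroids, and no two of which are
projectively equivalent. -/
theorem result :
    ¬ MatroidDeterminesGeproci ∧
    ∃ F : Set (Fin 24 → Fin (3 + 1) → ℂ), F.Infinite ∧
      (∀ v ∈ F, NontrivialGeproci v) ∧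
      (∀ v ∈ F, ∀ v' ∈ F, SameMatroid v v') ∧
      (∀ v ∈ F, ∀ v' ∈ F, ProjEquiv v v' → v = v') :=
  ⟨not_determined, main⟩

end Pool.Agent.Results.MP_586029_ag.MatroidDoesNotFixGeproci
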